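import Pool.Agent.helper17.CH.SpecV

/-!
# Project CH, part V, row VP
-/

set_option autoImplicit false

namespace Pool.Agent.CH

open Finset ArithmeticFunction
open Pool.Agent.helper39.MT (GG)

theorem VP_nit_norm (t x : ℝ) : ‖nit t x‖ = 1 := by
  unfold nit
  exact Complex.norm_exp_ofReal_mul_I _

theorem VP_cpow (t : ℝ) (s : ℂ) (n : ℕ) (hn : n ≠ 0) :
    ((n : ℂ) ^ s) = (n : ℂ) ^ (s - t * Complex.I) * nit t n := by
  have hn' : (n : ℂ) ≠ 0 := Nat.cast_ne_zero.2 hn
  have h1 : nit t n = (n : ℂ) ^ ((t : ℂ) * Complex.I) := by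
    unfold nit
    rw [Complex.cpow_def_of_ne_zero hn', ← Complex.natCast_log]
    congr 1
    push_cast
    ring
  rw [h1, ← Complex.cpow_add _ _ hn']
  congr 1
  ring

theorem VP_series (f : ℕ → ℂ) (t : ℝ) (s : ℂ) :
    LSeries (fun n => f n * nit t n) s = LSeries f (s - t * Complex.I) := by
  unfold LSeries
  refine tsum_congr fun n => ?_
  rcases Nat.eq_zero_or_pos n with h | h
  · subst h
    rw [LSeries.term_zero, LSeries.term_zero]
  · have hn : n ≠ 0 := h.ne'
    have hn' : (n : ℂ) ≠ 0 := Nat.cast_ne_zero.2 hn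
    rw [LSeries.term_of_ne_zero hn, LSeries.term_of_ne_zero hn, VP_cpow t s n hn]
    have h2 : nit t n ≠ 0 := by
      intro h0
      have := VP_nit_norm t n
      rw [h0, norm_zero] at this
      exact zero_ne_one this
    have h3 : (n : ℂ) ^ (s - t * Complex.I) ≠ 0 := by
      rw [Complex.cpow_def_of_ne_zero hn']
      exact Complex.exp_ne_zero _
    rw [mul_div_mul_right _ _ h2]

theorem VP_dl (x : ℝ) (hL : 1 ≤ Real.log x) (m : ℕ) :
    dl x ^ (20 * (m + 4) + 4) ≤ Real.log x ^ (20 * (m + 4)) / Real.log x ^ m := by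
  have hL0 : 0 < Real.log x := by linarith
  unfold dl
  rw [← Real.rpow_natCast, ← Real.rpow_mul hL0.le, ← Real.rpow_natCast (Real.log x) (20 * (m + 4)),
    ← Real.rpow_natCast (Real.log x) m, ← Real.rpow_sub hL0]
  apply Real.rpow_le_rpow_of_exponent_le hL
  push_cast
  have : (0 : ℝ) ≤ m := Nat.cast_nonneg m
  linarith

theorem VP_dl_one (x : ℝ) (hL : 1 ≤ Real.log x) : 1 ≤ dl x := by
  unfold dl
  exact Real.one_le_rpow hL (by norm_num)

/-- **VP**. -/
theorem VP (h1 : LF_stmt) (h2 : FS_stmt) : VP_stmt := by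
  intro A B K
  obtain ⟨m, hm⟩ := h2 (A + 1)
  obtain ⟨C, x₁, hC, hFS⟩ := hm (20 * (m + 4))
  obtain ⟨B₁', x₂, hLF⟩ := h1 (20 * (m + 4)) B (K + 1)
  have hlim : ∀ᶠ x : ℝ in Filter.atTop, Real.log x ^ m ≤ x / 2 := by
    have h := (Asymptotics.isLittleO_iff.1 (Real.isLittleO_pow_log_id_atTop (n := m)))
      (show (0 : ℝ) < 1 / 2 by norm_num)
    filter_upwards [h, Filter.eventually_ge_atTop 1] with x hx hx1
    rw [Real.norm_of_nonneg (pow_nonneg (Real.log_nonneg hx1) _), id,
      Real.norm_of_nonneg (by linarith)] at hx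
    linarith
  obtain ⟨x₃, hx₃⟩ := Filter.eventually_atTop.1 hlim
  refine ⟨max B₁' m + 1, max (max x₁ x₂) (max x₃ (Real.exp (max C 2))), ?_⟩
  intro x hx q hq hqB χ t ht1 ht2
  have hx1 : x₁ ≤ x := le_trans (le_trans (le_max_left _ _) (le_max_left _ _)) hx
  have hx2 : x₂ ≤ x := le_trans (le_trans (le_max_right _ _) (le_max_left _ _)) hx
  have hx3 : x₃ ≤ x := le_trans (le_trans (le_max_left _ _) (le_max_right _ _)) hx
  have hx4 : Real.exp (max C 2) ≤ x := le_trans (le_trans (le_max_right _ _) (le_max_right _ _)) hx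
  have hx0 : 0 < x := (Real.exp_pos _).trans_le hx4
  obtain ⟨L, hL⟩ : ∃ L : ℝ, L = Real.log x := ⟨_, rfl⟩
  have hLm : max C 2 ≤ L := by rw [hL, Real.le_log_iff_exp_le hx0]; exact hx4
  have hLC : C ≤ L := (le_max_left _ _).trans hLm
  have hL2 : 2 ≤ L := (le_max_right _ _).trans hLm
  have hL1 : 1 ≤ L := by linarith
  have hL0 : 0 < L := by linarith
  have hxe : 2 ≤ x := by
    have h := Real.add_one_le_exp (max C 2)
    have h' : 2 ≤ max C 2 := le_max_right _ _
    linarith
  have hlogm : L ^ m ≤ x / 2 := by rw [hL]; exact hx₃ x hx3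
  -- the range
  have hR : ∀ u : ℝ, |u| ≤ L ^ m →
      Rng B₁' (K + 1) x (1 + 1 / (Real.log x : ℂ) + u * Complex.I - t * Complex.I) := by
    intro u hu
    have hre : (1 + 1 / (Real.log x : ℂ) + u * Complex.I - t * Complex.I).re = 1 + 1 / L := by
      rw [← hL]
      have : (1 / (L : ℂ)).re = 1 / L := by
        rw [← Complex.ofReal_one, ← Complex.ofReal_div, Complex.ofReal_re]
      simp only [Complex.add_re, Complex.sub_re, Complex.one_re, Complex.mul_re, Complex.ofReal_re,
        Complex.I_re, Complex.ofReal_im, Complex.I_im, mul_zero, this]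
      ring
    have him : (1 + 1 / (Real.log x : ℂ) + u * Complex.I - t * Complex.I).im = u - t := by
      rw [← hL]
      have : (1 / (L : ℂ)).im = 0 := by
        rw [← Complex.ofReal_one, ← Complex.ofReal_div, Complex.ofReal_im]
      simp only [Complex.add_im, Complex.sub_im, Complex.one_im, Complex.mul_im, Complex.ofReal_re,
        Complex.I_re, Complex.ofReal_im, Complex.I_im, mul_zero, this]
      ring
    have hpow : L ^ B₁' + L ^ m ≤ L ^ (max B₁' m + 1) := by
      have e1 : L ^ B₁' ≤ L ^ (max B₁' m) := pow_le_pow_right₀ hL1 (le_max_left _ _)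
      have e2 : L ^ m ≤ L ^ (max B₁' m) := pow_le_pow_right₀ hL1 (le_max_right _ _)
      have e3 : 0 < L ^ (max B₁' m) := pow_pos hL0 _
      rw [pow_succ]
      nlinarith
    rw [← hL] at ht1
    refine ⟨?_, ?_, ?_, ?_⟩
    · rw [hre, ← hL]
    · rw [hre]
      have : 1 / L ≤ 1 := by
        rw [div_le_one hL0]
        exact hL1
      linarith
    · rw [him, ← hL]
      have := abs_sub_abs_le_abs_sub t u
      rw [abs_sub_comm] at this
      linarith
    · rw [him]
      have e1 : |u - t| ≤ |u| + |t| := abs_sub u t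
      have e2 : (1 : ℝ) ≤ x ^ K := one_le_pow₀ (by linarith)
      have e3 : x ^ (K + 1) = x ^ K * x := pow_succ x K
      rw [e3]
      nlinarith
  have hdl1 : 1 ≤ dl x := VP_dl_one x (by rw [← hL]; exact hL1)
  have hdl : dl x ^ (20 * (m + 4) + 4) ≤ Real.log x ^ (20 * (m + 4)) / Real.log x ^ m :=
    VP_dl x (by rw [← hL]; exact hL1) m
  have hfinal : ∀ a : ℕ → ℂ, (∀ n, ‖a n‖ ≤ 1 + Real.log n) →
      (∀ u : ℝ, |u| ≤ Real.log x ^ m →
        ‖LSeries (fun n => a n * (Real.log n : ℂ) ^ (20 * (m + 4)))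
          (1 + 1 / (Real.log x : ℂ) + u * Complex.I)‖ ≤
          Real.log x ^ (20 * (m + 4)) / Real.log x ^ m) →
      ‖∑ n ∈ Ioc 0 ⌊x⌋₊, a n‖ ≤ x / Real.log x ^ A := by
    intro a ha hF
    refine (hFS x hx1 a ha hF).trans ?_
    rw [← hL, pow_succ, div_le_div_iff₀ (by positivity) (by positivity)]
    have : 0 < x * L ^ A := by positivity
    nlinarith
  constructor
  · refine hfinal (fun n => (vonMangoldt n : ℂ) * χ n * nit t n) ?_ ?_
    · intro n
      rw [norm_mul, norm_mul, VP_nit_norm, mul_one, Complex.norm_real,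
        Real.norm_of_nonneg vonMangoldt_nonneg]
      have h3 : vonMangoldt n ≤ Real.log n := vonMangoldt_le_log
      have h4 : ‖χ (n : ZMod q)‖ ≤ 1 := χ.norm_le_one _
      have h5 : 0 ≤ vonMangoldt n := vonMangoldt_nonneg
      have h6 : 0 ≤ ‖χ (n : ZMod q)‖ := norm_nonneg _
      nlinarith
    · intro u hu
      have e : (fun n : ℕ => (vonMangoldt n : ℂ) * χ n * nit t n *
          (Real.log n : ℂ) ^ (20 * (m + 4))) =
          fun n : ℕ => ((vonMangoldt n : ℂ) * χ n * (Real.log n : ℂ) ^ (20 * (m + 4))) * nit t n := by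
        funext n
        ring
      rw [e, VP_series]
      have h3 := (hLF x hx2 q hq hqB χ _ (hR u (by rw [hL]; exact hu)) (20 * (m + 4)) le_rfl).1
      refine le_trans h3 (le_trans ?_ hdl)
      exact pow_le_pow_right₀ hdl1 (by omega)
  · refine hfinal (fun n => ((moebius n : ℤ) : ℂ) * χ n * nit t n) ?_ ?_
    · intro n
      rw [norm_mul, norm_mul, VP_nit_norm, mul_one]
      have h3 : ‖((moebius n : ℤ) : ℂ)‖ ≤ 1 := by
        rw [Complex.norm_intCast]
        exact_mod_cast abs_moebius_le_one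
      have h4 : ‖χ (n : ZMod q)‖ ≤ 1 := χ.norm_le_one _
      have h5 : 0 ≤ Real.log (n : ℝ) := Real.log_natCast_nonneg n
      have h6 : 0 ≤ ‖χ (n : ZMod q)‖ := norm_nonneg _
      have h7 : 0 ≤ ‖((moebius n : ℤ) : ℂ)‖ := norm_nonneg _
      nlinarith
    · intro u hu
      have e : (fun n : ℕ => ((moebius n : ℤ) : ℂ) * χ n * nit t n *
          (Real.log n : ℂ) ^ (20 * (m + 4))) =
          fun n : ℕ => (((moebius n : ℤ) : ℂ) * χ n * (Real.log n : ℂ) ^ (20 * (m + 4))) *
            nit t n := by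
        funext n
        ring
      rw [e, VP_series]
      have h3 := (hLF x hx2 q hq hqB χ _ (hR u (by rw [hL]; exact hu)) (20 * (m + 4)) le_rfl).2
      exact le_trans h3 hdl

end Pool.Agent.CH
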